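import Mathlib
import Pool.Agent.TH876.Rad

set_option autoImplicit false

/-!
# Two sums over sets of primes of a number field
-/

namespace Pool.Agent.Y96

open NumberField IsDedekindDomain Finset Pool.Agent.H691R3 Pool.Agent.TH876.Loc

theorem log_nn {K : Type} [Field K] [NumberField K] (S : Finset (Pr K)) :
    Real.log (nn S) = ∑ v ∈ S, Real.log (Nv v) := by
  unfold nn
  exact Real.log_prod fun v _ => (Nv_pos v).ne'

theorem omegaK (K : Type) [Field K] [NumberField K] : ∃ X0 : ℝ, 16 ≤ X0 ∧ ∀ X : ℝ, X0 ≤ X →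
    ∀ S : Finset (Pr K), nn S ≤ X → (S.card : ℝ) ≤ 3 * Real.log X / Real.log (Real.log X) := by
  classical
  set n : ℝ := (Module.finrank ℚ K : ℝ) with hn
  have hn0 : 0 ≤ n := Nat.cast_nonneg _
  refine ⟨max 16 (Real.exp ((10 * n) ^ 2)), le_max_left _ _, fun X hX S hS => ?_⟩
  have hX16 : 16 ≤ X := (le_max_left _ _).trans hX
  have hXn : Real.exp ((10 * n) ^ 2) ≤ X := (le_max_right _ _).trans hX
  have hX0 : 0 < X := by linarith
  set L := Real.log X with hL
  have hLn : (10 * n) ^ 2 ≤ L := (Real.le_log_iff_exp_le hX0).2 hXn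
  have hL1 : 1 < L := by
    rw [hL, Real.lt_log_iff_exp_lt hX0]
    have := Real.exp_one_lt_d9
    linarith
  have hL0 : 0 < L := by linarith
  set lam := Real.log L with hlam
  have hlam0 : 0 < lam := Real.log_pos hL1
  have hs1 : 1 < Real.sqrt L := by
    rw [Real.lt_sqrt (by norm_num)]
    simpa using hL1
  have hs0 : 0 < Real.sqrt L := by linarith
  have hsn : 10 * n ≤ Real.sqrt L := Real.le_sqrt_of_sq_le hLn
  have hls : Real.log (Real.sqrt L) = lam / 2 := Real.log_sqrt hL0.le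
  have hss : Real.sqrt L * Real.sqrt L = L := Real.mul_self_sqrt hL0.le
  have h1 : ((S.filter fun v => Nv v ≤ Real.sqrt L).card : ℝ) ≤ L / lam := by
    refine (card_primes_le hs1 _ fun v hv => (Finset.mem_filter.1 hv).2).trans ?_
    rw [hls, ← hn, le_div_iff₀ hlam0]
    have h2 : 5 * n * (Real.sqrt L / (lam / 2)) * lam = 10 * n * Real.sqrt L := by
      field_simp
      ring
    rw [h2]
    calc 10 * n * Real.sqrt L ≤ Real.sqrt L * Real.sqrt L :=
          mul_le_mul_of_nonneg_right hsn hs0.le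
      _ = L := hss
  have h3 : ((S.filter fun v => ¬ Nv v ≤ Real.sqrt L).card : ℝ) ≤ 2 * L / lam := by
    have h4 : ((S.filter fun v => ¬ Nv v ≤ Real.sqrt L).card : ℝ) * (lam / 2) ≤ L := by
      calc ((S.filter fun v => ¬ Nv v ≤ Real.sqrt L).card : ℝ) * (lam / 2)
          = ∑ _v ∈ S.filter (fun v => ¬ Nv v ≤ Real.sqrt L), lam / 2 := by
            rw [Finset.sum_const, nsmul_eq_mul]
        _ ≤ ∑ v ∈ S.filter (fun v => ¬ Nv v ≤ Real.sqrt L), Real.log (Nv v) := by
            refine Finset.sum_le_sum fun v hv => ?_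
            rw [← hls]
            exact Real.log_le_log hs0 (not_le.1 (Finset.mem_filter.1 hv).2).le
        _ ≤ ∑ v ∈ S, Real.log (Nv v) := by
            refine Finset.sum_le_sum_of_subset_of_nonneg (Finset.filter_subset _ _)
              fun v _ _ => Real.log_nonneg (one_le_Nv v)
        _ = Real.log (nn S) := (log_nn S).symm
        _ ≤ L := Real.log_le_log (nn_pos S) hS
    rw [le_div_iff₀ hlam0]
    linarith
  have h5 : (S.card : ℝ) = ((S.filter fun v => Nv v ≤ Real.sqrt L).card : ℝ) +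
      ((S.filter fun v => ¬ Nv v ≤ Real.sqrt L).card : ℝ) := by
    rw [← Finset.card_filter_add_card_filter_not (s := S) (fun v => Nv v ≤ Real.sqrt L)]
    push_cast
    rfl
  rw [h5]
  calc _ ≤ L / lam + 2 * L / lam := add_le_add h1 h3
    _ = 3 * L / lam := by ring

theorem tend_aux (C D c : ℝ) (hC : 1 ≤ C) : Filter.Tendsto
    (fun t : ℝ => 3 * Real.log (C * t ^ 2) / t + D * (t + c) / t ^ 2) Filter.atTop (nhds 0) := by
  have h1 : Filter.Tendsto (fun t : ℝ => Real.log t / t) Filter.atTop (nhds 0) :=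
    (Real.isLittleO_log_id_atTop).tendsto_div_nhds_zero
  have h2 : Filter.Tendsto (fun t : ℝ => t⁻¹) Filter.atTop (nhds 0) := tendsto_inv_atTop_zero
  have h3 : Filter.Tendsto (fun t : ℝ => 3 * Real.log C * t⁻¹ + 6 * (Real.log t / t) +
      (D * t⁻¹ + D * c * (t⁻¹ * t⁻¹))) Filter.atTop
      (nhds (3 * Real.log C * 0 + 6 * 0 + (D * 0 + D * c * (0 * 0)))) :=
    ((h2.const_mul _).add (h1.const_mul _)).add ((h2.const_mul _).add ((h2.mul h2).const_mul _))
  have h4 : (3 * Real.log C * 0 + 6 * 0 + (D * 0 + D * c * (0 * 0)) : ℝ) = 0 := by ring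
  rw [h4] at h3
  refine h3.congr' ?_
  filter_upwards [Filter.eventually_gt_atTop 0] with t ht
  have hC0 : (C : ℝ) ≠ 0 := by linarith
  rw [Real.log_mul hC0 (pow_ne_zero 2 ht.ne'), Real.log_pow]
  field_simp
  push_cast
  ring

theorem sum_bigK (K : Type) [Field K] [NumberField K] (C η : ℝ) (hC : 1 ≤ C) (hη : 0 < η) :
    ∃ X0 : ℝ, 16 ≤ X0 ∧ ∀ X : ℝ, X0 ≤ X → ∀ M : ℝ, 1 ≤ M → M ≤ X →
    ∀ F : Finset (Finset (Pr K)), (∀ S ∈ F, nn S ≤ M) →
    ∑ S ∈ F, (C * Real.log X) ^ S.card ≤ M * X ^ η := by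
  classical
  obtain ⟨X1, hX1, hom⟩ := omegaK K
  obtain ⟨c, hc, hsum⟩ := sum_inv_le
  set D : ℝ := (Module.finrank ℚ K : ℝ) with hD
  have hD0 : 0 ≤ D := Nat.cast_nonneg _
  have htend := (tend_aux C D c hC).comp (Real.tendsto_log_atTop.comp Real.tendsto_log_atTop)
  have hev := (htend.eventually_le_const hη).and
    ((Real.tendsto_log_atTop.comp Real.tendsto_log_atTop).eventually_ge_atTop 1)
  obtain ⟨X2, hX2⟩ := Filter.eventually_atTop.1 hev
  refine ⟨max X1 X2, hX1.trans (le_max_left _ _), fun X hX M hM hMX F hF => ?_⟩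
  have hXX1 : X1 ≤ X := (le_max_left _ _).trans hX
  have hXX2 : X2 ≤ X := (le_max_right _ _).trans hX
  have hX16 : 16 ≤ X := hX1.trans hXX1
  have hX0 : 0 < X := by linarith
  obtain ⟨hf, hl1⟩ := hX2 X hXX2
  simp only [Function.comp_apply] at hf hl1
  set L := Real.log X with hL
  set lam := Real.log L with hlam
  have hlam0 : 0 < lam := by linarith
  have hL1 : 1 < L := by
    rw [hL, Real.lt_log_iff_exp_lt hX0]
    have := Real.exp_one_lt_d9
    linarith
  have hL0 : 0 < L := by linarith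
  set A := L / lam ^ 2 with hA
  have hA0 : 0 < A := by positivity
  have hB1 : 1 ≤ C * lam ^ 2 := by nlinarith [one_le_pow₀ (n := 2) hl1]
  have hB0 : 0 < C * lam ^ 2 := by linarith
  set E1 : ℝ := 3 * L / lam * Real.log (C * lam ^ 2) with hE1
  set E2 : ℝ := A * (D * (lam + c)) with hE2
  have hE : E1 + E2 ≤ η * L := by
    have h1 : E1 + E2 = (3 * Real.log (C * lam ^ 2) / lam + D * (lam + c) / lam ^ 2) * L := by
      rw [hE1, hE2, hA]
      field_simp
    rw [h1]
    exact mul_le_mul_of_nonneg_right hf hL0.le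
  have hterm : ∀ S ∈ F, (C * L) ^ S.card ≤ M * Real.exp E1 * ∏ v ∈ S, (A / Nv v) := by
    intro S hS
    have hSM := hF S hS
    have h1 : (C * L) = (C * lam ^ 2) * A := by
      rw [hA]
      field_simp
    rw [h1, mul_pow, prod_C]
    have h2 : (C * lam ^ 2) ^ S.card ≤ Real.exp E1 := by
      rw [← Real.exp_log (pow_pos hB0 S.card), Real.log_pow]
      apply Real.exp_le_exp.2
      exact mul_le_mul_of_nonneg_right (hom X hXX1 S (hSM.trans hMX)) (Real.log_nonneg hB1)
    have h3 : 1 ≤ M / nn S := (one_le_div (nn_pos S)).2 hSM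
    have h4 : 0 ≤ A ^ S.card := by positivity
    calc (C * lam ^ 2) ^ S.card * A ^ S.card ≤ Real.exp E1 * A ^ S.card :=
          mul_le_mul_of_nonneg_right h2 h4
      _ = Real.exp E1 * A ^ S.card * 1 := by ring
      _ ≤ Real.exp E1 * A ^ S.card * (M / nn S) :=
          mul_le_mul_of_nonneg_left h3 (mul_nonneg (Real.exp_pos _).le h4)
      _ = M * Real.exp E1 * (A ^ S.card / nn S) := by ring
  have hsets : ∑ S ∈ F, ∏ v ∈ S, (A / Nv v) ≤ Real.exp E2 := by
    refine (sum_sets_le (fun v : Pr K => A / Nv v) (fun v => by have := Nv_pos v; positivity)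
      (F.biUnion id) F (fun s hs => Finset.subset_biUnion_of_mem id hs)).trans ?_
    apply Real.exp_le_exp.2
    have h3 : ∑ v ∈ F.biUnion id, A / Nv v = A * ∑ v ∈ F.biUnion id, 1 / Nv v := by
      rw [Finset.mul_sum]
      exact Finset.sum_congr rfl fun v _ => by ring
    rw [h3, hE2]
    refine mul_le_mul_of_nonneg_left (hsum K X (by linarith) _ ?_) hA0.le
    intro v hv
    obtain ⟨s, hs, hv⟩ := Finset.mem_biUnion.1 hv
    exact (Nv_le_nn hv).trans ((hF s hs).trans hMX)
  calc ∑ S ∈ F, (C * L) ^ S.card ≤ ∑ S ∈ F, M * Real.exp E1 * ∏ v ∈ S, (A / Nv v) :=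
        Finset.sum_le_sum hterm
    _ = M * Real.exp E1 * ∑ S ∈ F, ∏ v ∈ S, (A / Nv v) := by rw [Finset.mul_sum]
    _ ≤ M * Real.exp E1 * Real.exp E2 :=
        mul_le_mul_of_nonneg_left hsets (mul_nonneg (by linarith) (Real.exp_pos _).le)
    _ = M * Real.exp (E1 + E2) := by rw [Real.exp_add]; ring
    _ ≤ M * Real.exp (η * L) :=
        mul_le_mul_of_nonneg_left (Real.exp_le_exp.2 hE) (by linarith)
    _ = M * X ^ η := by
        rw [Real.rpow_def_of_pos hX0, mul_comm η]

end Pool.Agent.Y96
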